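import Mathlib
import Pool.Agent.H.MP_6bff71_co.C

set_option autoImplicit false

open Finset Filter Topology Pool.Agent.H.MP_6bff71_co

namespace Pool.Agent.Results.MP_6bff71_co.Yes

/-- Number of monochromatic `k`-term progressions `a, a+d, …, a+(k-1)d` in `[n]`. -/
def M {r : ℕ} (k n : ℕ) (χ : ℕ → Fin r) : ℕ :=
  ((Icc 1 n ×ˢ Icc 1 n).filter
    (fun p => p.1 + (k - 1) * p.2 ≤ n ∧ ∀ i < k, χ (p.1 + i * p.2) = χ p.1)).card

theorem link {r k n L : ℕ} (hk : 2 ≤ k) (hL : n ≤ L) (f : ℕ → Fin r) :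
    (M k n (fun x => f (x - 1)) : ℝ) =
      ∑ p ∈ S k n L, if ∀ i < k, f (p.1 + i * p.2) = f p.1 then 1 else 0 := by
  rw [sum_boole, M]
  congr 1
  refine card_nbij' (fun p => (p.1 - 1, p.2)) (fun p => (p.1 + 1, p.2)) ?_ ?_ ?_ ?_
  · rintro ⟨a, d⟩ hp
    have h4 : 1 * d ≤ (k - 1) * d := Nat.mul_le_mul_right _ (by omega)
    simp only [S, coe_filter, mem_filter, mem_product, mem_range, mem_Icc, Set.mem_ofPred_eq] at hp ⊢
    refine ⟨⟨⟨by omega, by omega⟩, by omega, by omega⟩, fun i hi => ?_⟩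
    rw [← hp.2.2 i hi]; congr 1; omega
  · rintro ⟨a, d⟩ hp
    have h4 : 1 * d ≤ (k - 1) * d := Nat.mul_le_mul_right _ (by omega)
    simp only [S, coe_filter, mem_filter, mem_product, mem_range, mem_Icc, Set.mem_ofPred_eq] at hp ⊢
    refine ⟨⟨⟨by omega, by omega⟩, by omega, by omega⟩, by omega, fun i hi => ?_⟩
    rw [Nat.add_sub_cancel, ← hp.2 i hi]; congr 1; omega
  · rintro ⟨a, d⟩ hp
    simp only [coe_filter, mem_product, mem_Icc, Set.mem_ofPred_eq] at hp
    simp only [Prod.mk.injEq, and_true]; omega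
  · rintro ⟨a, d⟩ -
    simp

theorem asym {r k N P : ℕ} (hk : 2 ≤ k) (hN : 0 < N) (hP : 0 < P) : ∃ C : ℝ,
    ∀ c : ℕ → ℕ → Fin r, ∃ δ : ℝ, ∀ n : ℕ, 0 < n →
      |(M k n (fun x => col N P c n (x - 1)) : ℝ) - δ * n ^ 2| ≤ C * n := by
  refine ⟨((P * P * (k * (k * ((2 * k + 1) * P * N))) : ℕ) : ℝ) + P, fun c => ?_⟩
  obtain ⟨δ, hδ⟩ := lim_of_scale (G k N P c) _ (fun m n _ hn => G_scale (by omega) c m n hn)
  refine ⟨δ, fun n hn => ?_⟩
  have h : |G k N P c n - M k n (fun x => col N P c n (x - 1))| ≤ P * n := by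
    rw [link hk (Nat.le_mul_of_pos_left n hP), S, sum_filter, sum_product, G]
    refine (abs_sum_le (b := fun _ => 1) (fun a _ => (abs_sum_le
      (b := fun d => if d = 0 then 1 else 0) (fun d _ => ?_)).trans ?_)).trans (by simp)
    · have : (a + (k - 1) * d) * N / n < N ↔ a + (k - 1) * d < n := by
        rw [Nat.div_lt_iff_lt_mul hn, mul_comm N, Nat.mul_lt_mul_right hN]
      simp only [W, this]
      split_ifs <;> first | (simp; done) | tauto
    · rw [sum_ite_eq']; split_ifs <;> norm_num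
  have := hδ n hn
  rw [abs_le] at h this ⊢
  constructor <;> linarith [h.1, h.2, this.1, this.2]

theorem gam_abs {k : ℕ} (hk : 3 ≤ k) {lam : ℝ} (h0 : 0 ≤ lam) (h1 : lam ≤ 1) (b : ℕ) :
    |gam k lam b| ≤ 1 := by
  have := Nat.mul_le_mul_right (3 * k + 1) (show 2 ≤ k - 1 by omega)
  unfold gam
  split_ifs <;> first | omega | simp [abs_of_nonneg h0, h1]

theorem pairs {k m N n L : ℕ} (hk : 3 ≤ k) {lam : ℝ} (hl : 0 ≤ lam)
    (hN : N = (k - 1) * (3 * k + 1) + 1) (hn : n = k.factorial * (m * N)) (hL : n ≤ L) :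
    ∑ p ∈ S k n L, e2 k (fun i => gg k lam k.factorial m (p.1 + i * p.2)) ≤
      (k ^ 2 * lam ^ 2 - lam) * m ^ 2 := by
  classical
  simp only [e2]
  rw [sum_comm]
  have : ∀ j ∈ range k, ∑ p ∈ S k n L, ∑ i ∈ range j, gg k lam k.factorial m (p.1 + i * p.2) *
      gg k lam k.factorial m (p.1 + j * p.2) ≤
      (k * lam ^ 2 - if j = k - 1 then lam else 0) * m ^ 2 := by
    intro j hj
    have hj := mem_range.1 hj
    rw [sum_comm]
    refine (sum_le_sum (fun i hi => (reidx (mem_range.1 hi) hj hL _ (fun x hx => ?_)).le.trans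
      (pair hk (mem_range.1 hi) hj k.factorial_pos hl hN hn))).trans ?_
    · have := mem_range.1 hi
      exact (Nat.dvd_factorial (show 0 < j - i by omega) (show j - i ≤ k by omega)).trans
        (by_contra (fun h => hx (by rw [gg, if_neg h])))
    · rw [← sum_mul, sum_sub_distrib, sum_const, card_range, nsmul_eq_mul]
      refine mul_le_mul_of_nonneg_right (sub_le_sub (mul_le_mul_of_nonneg_right
        (by exact_mod_cast hj.le) (sq_nonneg _)) ?_) (sq_nonneg _)
      split_ifs with h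
      · simp [h, show 1 < k - 1 by omega]
      · simp [h]
  refine (sum_le_sum this).trans (le_of_eq ?_)
  rw [← sum_mul, sum_sub_distrib, sum_ite_eq', if_pos (mem_range.2 (by omega)), sum_const,
    card_range, nsmul_eq_mul]
  ring

theorem result (k r : ℕ) (hk : 3 ≤ k) (hr : 2 ≤ r) :
    ∃ δ : ℝ, δ < 1 / (2 * (k - 1) * r ^ (k - 1)) ∧ ∃ χ : ℕ → ℕ → Fin r, ∃ C : ℝ,
      ∀ n : ℕ, 1 ≤ n → |(M k n (χ n) : ℝ) - δ * n ^ 2| ≤ C * n := by
  classical
  obtain ⟨C, hC, hc⟩ := colsum hr k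
  set N := (k - 1) * (3 * k + 1) + 1 with hN
  set D := k.factorial with hD
  have D0 : 0 < D := k.factorial_pos
  have N0 : 0 < N := Nat.succ_pos _
  have k0 : (3 : ℝ) ≤ k := by exact_mod_cast hk
  have r0 : (2 : ℝ) ≤ r := by exact_mod_cast hr
  set lam : ℝ := 1 / (2 * k ^ 2) with hlam
  have l0 : 0 < lam := by positivity
  have l1 : lam ≤ 1 := by rw [hlam, div_le_one (by positivity)]; nlinarith
  have l2 : k ^ 2 * lam ^ 2 - lam = -(lam / 2) := by rw [hlam]; field_simp; ring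
  set A : ℝ := D * N with hA
  have A0 : 0 < A := by positivity
  set ε : ℝ := min 1 (lam / (2 * (C + 1) * A ^ 2)) with hε
  have e0 : 0 < ε := by positivity
  have e2' : ε ≤ 1 := min_le_left _ _
  have e1 : C * ε * A ^ 2 ≤ lam / 2 := by
    have := (le_div_iff₀ (by positivity)).1 (min_le_right 1 (lam / (2 * (C + 1) * A ^ 2)))
    rw [← hε] at this
    nlinarith [mul_pos e0 (pow_pos A0 2)]
  set η : ℝ := ε ^ 2 * lam / (4 * r ^ k) with hη
  have η0 : 0 < η := by positivity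
  obtain ⟨Q, hQ⟩ := exists_nat_gt (k ^ 2 * A ^ 2 / η)
  have Q0 : 0 < Q := Nat.cast_pos.1 (lt_trans (by positivity) hQ)
  have P0 : 0 < D * Q := Nat.mul_pos D0 Q0
  have : NeZero N := ⟨N0.ne'⟩
  have : NeZero (D * Q) := ⟨P0.ne'⟩
  obtain ⟨C1, h1⟩ := asym (r := r) (show 2 ≤ k by omega) N0 P0
  choose δ hδ using h1
  let cc : (Fin N × Fin (D * Q) → Fin r) → ℕ → ℕ → Fin r :=
    fun ω b ρ => ω (Fin.ofNat N b, Fin.ofNat (D * Q) ρ)
  by_contra hcon
  have hge : ∀ ω, 1 / (2 * (k - 1) * r ^ (k - 1)) ≤ δ (cc ω) := fun ω => not_lt.1 (fun h =>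
    hcon ⟨_, h, fun n x => col N (D * Q) (cc ω) n (x - 1), C1, fun n hn => hδ _ n hn⟩)
  obtain ⟨m, hm⟩ := exists_nat_gt (|C1| * A / η)
  have m0 : 0 < m := Nat.cast_pos.1 (lt_of_le_of_lt (by positivity) hm)
  set n := D * (m * N) with hn
  have n0 : 0 < n := by positivity
  have nA : (n : ℝ) = A * m := by rw [hn, hA]; push_cast; ring
  let g0 : Fin N × Fin (D * Q) → ℝ := fun j => if D ∣ j.2.val then gam k lam j.1.val else 0
  have g1 : ∀ j, |g0 j| ≤ 1 := fun j => by
    simp only [g0]; split_ifs; exacts [gam_abs hk l0.le l1 _, by simp]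
  let w : Fin N × Fin (D * Q) → Fin r → ℝ := fun j c => (1 + sg c * (ε * g0 j)) / r
  have w0 : ∀ j c, 0 ≤ w j c := fun j c => div_nonneg (by
    have := mul_le_mul (sg_abs c) (mul_le_mul e2' (g1 j) (abs_nonneg _)
      zero_le_one) (by positivity) zero_le_one
    rw [← abs_of_pos e0, ← abs_mul, ← abs_mul] at this
    linarith [(abs_le.1 this).1]) (by positivity)
  have w1 : ∀ j, ∑ c, w j c = 1 := fun j => by
    simp only [w, ← sum_div, sum_add_distrib, ← sum_mul, (sg_sum hr).1]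
    simp [show r ≠ 0 by omega]
  have t1 : ∑ ω : Fin N × Fin (D * Q) → Fin r, ∏ j, w j (ω j) = 1 := by
    rw [← Fintype.piFinset_univ, ← prod_univ_sum (fun _ => univ) w]; simp [w1]
  have t0 : ∀ ω : Fin N × Fin (D * Q) → Fin r, 0 ≤ ∏ j, w j (ω j) :=
    fun ω => prod_nonneg (fun j _ => w0 _ _)
  have lo : 1 / (2 * (k - 1) * r ^ (k - 1)) * n ^ 2 - |C1| * n ≤
      ∑ ω : Fin N × Fin (D * Q) → Fin r, (∏ j, w j (ω j)) *
        (M k n (fun x => col N (D * Q) (cc ω) n (x - 1)) : ℝ) := by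
    rw [← one_mul (_ - _), ← t1, sum_mul]
    refine sum_le_sum (fun ω _ => mul_le_mul_of_nonneg_left ?_ (t0 ω))
    rw [t1]
    nlinarith [(abs_le.1 (hδ (cc ω) n n0)).1, mul_le_mul_of_nonneg_right (hge ω) (sq_nonneg (n : ℝ)),
      mul_le_mul_of_nonneg_right (le_abs_self C1) (Nat.cast_nonneg (α := ℝ) n)]
  have up : ∀ p ∈ S k n n, ∑ ω : Fin N × Fin (D * Q) → Fin r, (∏ j, w j (ω j)) *
      (if ∀ i < k, col N (D * Q) (cc ω) n (p.1 + i * p.2) = col N (D * Q) (cc ω) n p.1 then 1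
        else 0) ≤ (if ∃ h < k, 0 < h ∧ D * Q ∣ h * p.2 then 1 else 0) +
      (r + 2 * ε ^ 2 * e2 k (fun i => gg k lam D m (p.1 + i * p.2)) + C * ε ^ 3) / r ^ k := by
    intro p hp
    let key : ℕ → Fin N × Fin (D * Q) := fun i =>
      (Fin.ofNat N ((p.1 + i * p.2) * N / n), Fin.ofNat (D * Q) ((p.1 + i * p.2) % (D * Q)))
    have hle : ∑ c, ∏ i ∈ range k, w (key i) c ≤ _ := le_trans (le_of_eq (sum_congr rfl
      (fun c _ => prod_congr rfl (fun i hi => ?_)))) (hc ε e0.le e2'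
        (fun i => gg k lam D m (p.1 + i * p.2)) (fun i => by
          unfold gg; split_ifs; exacts [gam_abs hk l0.le l1 _, by simp]))
    · split_ifs with hb
      · have : 0 ≤ ∑ c, ∏ i ∈ range k, w (key i) c :=
          sum_nonneg (fun c _ => prod_nonneg (fun j _ => w0 _ _))
        refine le_trans ((sum_le_sum (fun ω _ => mul_le_of_le_one_right (t0 ω) ?_)).trans t1.le)
          (le_add_of_nonneg_right (this.trans hle))
        split_ifs <;> norm_num
      · rw [zero_add]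
        refine le_trans (le_trans (le_of_eq ?_) (expect (k := k) w w0 w1 key ?_)) hle
        · refine sum_congr rfl (fun ω _ => ?_)
          congr 1
          simp only [key, col, cc, zero_mul, add_zero]
          congr
        · have : ∀ i j, i < j → j < k → key i ≠ key j := fun i j hij hj h => hb ⟨j - i, by omega,
            by omega, by
              have h2 := congrArg (fun x => x.2.val) h
              simp only [key, Fin.val_ofNat, Nat.mod_mod] at h2
              have := (Nat.modEq_iff_dvd' (by nlinarith)).1 h2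
              rwa [Nat.add_sub_add_left, ← Nat.sub_mul] at this⟩
          intro i hi j hj h
          rcases lt_trichotomy i j with h1 | h1 | h1
          exacts [absurd h (this i j h1 (by simpa using hj)), h1,
            absurd h.symm (this j i h1 (by simpa using hi))]
    · have h2 := (mem_filter.1 hp).2.2
      have h3 : i * p.2 ≤ (k - 1) * p.2 := Nat.mul_le_mul_right _ (by have := mem_range.1 hi; omega)
      have h4 : (p.1 + i * p.2) * N / n < N := by
        rw [Nat.div_lt_iff_lt_mul n0, mul_comm N, Nat.mul_lt_mul_right N0]; omega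
      simp only [w, g0, key, Fin.val_ofNat, Nat.mod_mod, Nat.mod_eq_of_lt h4, gg,
        Nat.dvd_mod_iff (dvd_mul_right D Q)]
      rw [hn, ← mul_assoc D, Nat.mul_div_mul_right _ _ N0]
  simp_rw [link (show 2 ≤ k by omega) le_rfl, mul_sum] at lo
  rw [sum_comm] at lo
  have h2 := lo.trans (sum_le_sum up)
  rw [sum_add_distrib, sum_boole, ← sum_div, sum_add_distrib, sum_add_distrib, ← mul_sum,
    sum_const, sum_const, nsmul_eq_mul, nsmul_eq_mul] at h2
  have h3 := pairs hk l0.le hN hn le_rfl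
  have h4 := S_card (n := n) (L := n) (show 2 ≤ k by omega)
  have h5 : ((D * Q * _ : ℕ) : ℝ) ≤ (k * k * n * n : ℕ) :=
    Nat.cast_le.2 (bad (n := n) (L := n) (show 2 ≤ k by omega) P0)
  push_cast at h5
  rw [← hD, l2] at h3
  generalize ((filter (fun p : ℕ × ℕ => ∃ h < k, 0 < h ∧ D * Q ∣ h * p.2) (S k n n)).card : ℝ) = B
    at h2 h5
  have s0 : (0 : ℝ) ≤ (S k n n).card := Nat.cast_nonneg _
  generalize ((S k n n).card : ℝ) = s at h2 h4 s0
  have m1 : (0 : ℝ) < m := by exact_mod_cast m0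
  have b1 : B ≤ η * m ^ 2 := by
    have D1 : (1 : ℝ) ≤ D := by exact_mod_cast D0
    have Q1 : (0 : ℝ) < Q := by exact_mod_cast Q0
    rw [div_lt_iff₀ η0] at hQ
    rw [nA] at h5
    by_contra hh
    nlinarith [mul_le_mul_of_nonneg_right hQ.le (sq_nonneg (m : ℝ)), mul_pos η0 (pow_pos m1 2),
      mul_le_mul_of_nonneg_right D1 (show 0 ≤ Q * B by nlinarith [mul_pos η0 (pow_pos m1 2)])]
  have b2 : s * r / r ^ k ≤ 1 / (2 * (k - 1) * r ^ (k - 1)) * n ^ 2 := by
    have : (0 : ℝ) < k - 1 := by linarith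
    rw [show (r : ℝ) ^ k = r ^ (k - 1) * r by rw [← pow_succ]; congr 1; omega,
      mul_div_mul_right _ _ (by positivity), one_div_mul_eq_div, div_le_div_iff₀ (by positivity)
        (by positivity)]
    nlinarith [mul_le_mul_of_nonneg_right h4 (show (0 : ℝ) ≤ r ^ (k - 1) by positivity)]
  have b3 : s * (C * ε ^ 3) ≤ ε ^ 2 * (lam / 2) * m ^ 2 := by
    have : s ≤ A ^ 2 * m ^ 2 := by rw [nA] at h4; nlinarith
    nlinarith [mul_le_mul_of_nonneg_right this (show 0 ≤ C * ε ^ 3 by positivity),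
      mul_le_mul_of_nonneg_right e1 (show 0 ≤ ε ^ 2 * m ^ 2 by positivity)]
  have b4 : (2 * ε ^ 2 * ∑ p ∈ S k n n, e2 k (fun i => gg k lam D m (p.1 + i * p.2)) +
      s * (C * ε ^ 3)) / r ^ k ≤ -(2 * η * m ^ 2) := by
    have : η * r ^ k = ε ^ 2 * lam / 4 := by rw [hη]; field_simp
    rw [div_le_iff₀ (by positivity), show -(2 * η * m ^ 2) * (r : ℝ) ^ k =
      -(2 * (η * r ^ k) * m ^ 2) by ring, this]
    linarith [mul_le_mul_of_nonneg_left h3 (sq_nonneg ε)]
  rw [add_assoc, add_div] at h2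
  rw [div_lt_iff₀ η0] at hm
  rw [nA] at h2 b2
  nlinarith [mul_lt_mul_of_pos_right hm m1]

end Pool.Agent.Results.MP_6bff71_co.Yes
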